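import Pool.Agent.V11300.PPC.Transfer
import Pool.Agent.V11300.PPC.Cheb
import Pool.Agent.V11300.PPC.Boxes

set_option autoImplicit false

open MeasureTheory Filter Finset Topology

namespace Pool.Agent.Results.MP_29df5b_nt.PrimesNotPoissonian

open Pool.Agent.V11300.PPC

/-- The sequence `x 1, x 2, …` of points of `ℝ^d` has Poissonian pair correlations: for every `s > 0` the
number of ordered pairs `(k, l)` with `1 ≤ k ≠ l ≤ N` and `‖x k - x l‖ < s / N ^ (1 / d)` (maximum norm),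
divided by `N`, tends to `(2 s) ^ d`. -/
def HasPPC (d : ℕ) (x : ℕ → Fin d → ℝ) : Prop :=
  ∀ s : ℝ, 0 < s → Tendsto (fun N : ℕ => 1 / (N : ℝ) *
    (((Icc 1 N ×ˢ Icc 1 N).filter
      (fun p => p.1 ≠ p.2 ∧ ‖x p.1 - x p.2‖ < s / (N : ℝ) ^ (1 / (d : ℝ)))).card : ℝ))
    atTop (𝓝 ((2 * s) ^ d))

/-- The `n`-th prime, `n = 1, 2, …`. -/
noncomputable def prime (n : ℕ) : ℕ := Nat.nth Nat.Prime (n - 1)

theorem prime_le {n N : ℕ} (hn : n ≤ N) : prime n ≤ prime N :=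
  (Nat.nth_monotone Nat.infinite_setOfPred_prime) (by omega)

theorem same_box {d R : ℕ} (hR : 0 < R) {x y : Fin d → ℝ}
    (h : (fun i => ⌊(R : ℝ) * x i⌋) = fun i => ⌊(R : ℝ) * y i⌋) : ‖x - y‖ < 1 / (R : ℝ) := by
  have hR' : (0 : ℝ) < R := by exact_mod_cast hR
  rw [pi_norm_lt_iff (by positivity)]
  intro i
  have h1 := Int.abs_sub_lt_one_of_floor_eq_floor (congrFun h i)
  rw [← mul_sub, abs_mul, abs_of_pos hR'] at h1
  rw [Pi.sub_apply, Real.norm_eq_abs, lt_div_iff₀ hR']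
  linarith

theorem near {d R X : ℕ} (hR : 0 < R) {h : Fin d → ℤ} (hh : ∀ i, 1 ≤ h i ∧ h i ≤ (X : ℤ))
    {α : Fin d → ℝ} {m : ℤ} {q : ℕ} {w : ℝ} (hq : (q : ℝ) * |(∑ i, (h i : ℝ) * α i) - m| ≤ w) :
    ∃ z : ℤ, |(∑ i, (h i : ℝ) * (⌊(R : ℝ) * Int.fract ((q : ℝ) * α i)⌋ : ℤ)) - R * z| ≤
      R * w + d * X := by
  have hR' : (0 : ℝ) < R := by exact_mod_cast hR
  refine ⟨q * m - ∑ i, h i * ⌊(q : ℝ) * α i⌋, ?_⟩
  have e1 : (∑ i, (h i : ℝ) * (⌊(R : ℝ) * Int.fract ((q : ℝ) * α i)⌋ : ℤ)) =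
      R * (q * ∑ i, (h i : ℝ) * α i) - R * (∑ i, (h i : ℝ) * ⌊(q : ℝ) * α i⌋) -
      ∑ i, (h i : ℝ) * Int.fract ((R : ℝ) * Int.fract ((q : ℝ) * α i)) := by
    rw [mul_sum, mul_sum, mul_sum, ← sum_sub_distrib, ← sum_sub_distrib]
    apply sum_congr rfl
    intro i _
    have h2 : ((⌊(R : ℝ) * Int.fract ((q : ℝ) * α i)⌋ : ℤ) : ℝ) =
        R * Int.fract ((q : ℝ) * α i) - Int.fract ((R : ℝ) * Int.fract ((q : ℝ) * α i)) :=
      (Int.self_sub_fract _).symm
    rw [h2]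
    have h3 : Int.fract ((q : ℝ) * α i) = q * α i - ⌊(q : ℝ) * α i⌋ := rfl
    rw [mul_sub, sub_left_inj, h3]
    ring
  have e2 : (∑ i, (h i : ℝ) * (⌊(R : ℝ) * Int.fract ((q : ℝ) * α i)⌋ : ℤ)) -
      R * ((q * m - ∑ i, h i * ⌊(q : ℝ) * α i⌋ : ℤ) : ℝ) =
      R * (q * ((∑ i, (h i : ℝ) * α i) - m)) -
      ∑ i, (h i : ℝ) * Int.fract ((R : ℝ) * Int.fract ((q : ℝ) * α i)) := by
    rw [e1]
    push_cast
    ring
  rw [e2]
  have h2 : |(q : ℝ) * ((∑ i, (h i : ℝ) * α i) - m)| ≤ w := by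
    rw [abs_mul, abs_of_nonneg (Nat.cast_nonneg _)]
    exact hq
  have h3 : |∑ i, (h i : ℝ) * Int.fract ((R : ℝ) * Int.fract ((q : ℝ) * α i))| ≤ d * X := by
    refine le_trans (abs_sum_le_sum_abs _ _) ?_
    calc ∑ i, |(h i : ℝ) * Int.fract ((R : ℝ) * Int.fract ((q : ℝ) * α i))| ≤
          ∑ i : Fin d, (X : ℝ) := by
          apply sum_le_sum
          intro i _
          have h4 : (1 : ℝ) ≤ h i := by exact_mod_cast (hh i).1
          have h5 : (h i : ℝ) ≤ X := by exact_mod_cast (hh i).2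
          rw [abs_mul, abs_of_nonneg (by linarith : (0 : ℝ) ≤ h i), abs_of_nonneg (Int.fract_nonneg _)]
          have h6 := Int.fract_nonneg ((R : ℝ) * Int.fract ((q : ℝ) * α i))
          have h7 := Int.fract_lt_one ((R : ℝ) * Int.fract ((q : ℝ) * α i))
          nlinarith
      _ = d * X := by simp
  refine le_trans (abs_sub _ _) (add_le_add ?_ h3)
  rw [abs_mul, abs_of_pos hR']
  exact mul_le_mul_of_nonneg_left h2 hR'.le

theorem main (e : ℕ) : ∀ᵐ α : Fin (e + 2) → ℝ,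
    ¬ HasPPC (e + 2) (fun n i => Int.fract ((prime n : ℝ) * α i)) := by
  set A : ℕ := 2 ^ (e + 2) + 3 with hA
  set K : ℕ := (12 * (e + 2) + 6) * A with hK
  have hA0 : 0 < A := by positivity
  have hK0 : 0 < K := by positivity
  have hA' : (0 : ℝ) < A := by exact_mod_cast hA0
  have hK' : (1 : ℝ) ≤ K := by exact_mod_cast hK0
  set w : ℝ := 1 / (12 * A) with hw
  have hw0 : 0 < w := by positivity
  set w' : ℝ := w + (e + 2) / K with hw'
  have hw'0 : 0 ≤ w' := by positivity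
  have hKA : (K : ℝ) = (12 * (e + 2) + 6) * A := by rw [hK]; push_cast; ring
  have hsum : 6 * w' + 3 / K = 1 / A := by
    rw [hw', hw, hKA]
    field_simp
    ring
  have hw'1 : w' ≤ 1 / 2 := by
    have h1 : (1 : ℝ) ≤ A := by exact_mod_cast hA0
    have h2 : 1 / (A : ℝ) ≤ 1 := by rw [div_le_one hA']; exact h1
    have h3 : (0 : ℝ) ≤ 3 / K := by positivity
    linarith
  have hlogK : 0 ≤ Real.log K := Real.log_nonneg hK'
  set C : ℝ := 29 * (e + 2) * (K : ℝ) ^ (e + 2) * (Real.log K + 3) with hC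
  have hC0 : 0 < C := by positivity
  set c : ℝ := min (1 / 2) (w / C) with hc
  have hc0 : 0 < c := lt_min (by norm_num) (by positivity)
  have hc1 : c ≤ 1 / 2 := min_le_left _ _
  have hc2 : C * c ≤ w := by
    have : c ≤ w / C := min_le_right _ _
    rw [le_div_iff₀ hC0] at this
    linarith
  filter_upwards [real_ae e hc0 hc1] with α hα hP
  have h1 := (hP 1 one_pos).eventually_lt_const (u := (2 * 1 : ℝ) ^ (e + 2) + 1) (by linarith)
  obtain ⟨N0, hN0⟩ := h1.exists_forall_of_atTop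
  obtain ⟨j, hj, h, m, hh, hm⟩ := hα N0
  set X : ℕ := 16 ^ (j + 1) with hX
  set R : ℕ := K * X with hR
  set N : ℕ := R ^ (e + 2) with hN
  have hhX : ∀ i, 1 ≤ h i ∧ h i ≤ (X : ℤ) := fun i =>
    ⟨(hh i).1, by have := (hh i).2; rw [hX]; exact_mod_cast this⟩
  have hX0 : 0 < X := by positivity
  have hR0 : 0 < R := by positivity
  have hR' : (0 : ℝ) < R := by exact_mod_cast hR0
  have hX' : (0 : ℝ) < X := by exact_mod_cast hX0
  have hjX : j + 1 < X := Nat.lt_pow_self (by norm_num)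
  have hRX : X ≤ R := Nat.le_mul_of_pos_left _ hK0
  have hNR : R ≤ N := Nat.le_self_pow (by omega) R
  have hNN0 : N0 ≤ N := by omega
  have hN2 : 2 ≤ N := by omega
  have hN0' : (0 : ℝ) < N := by exact_mod_cast (by omega : 0 < N)
  have hRKX : (R : ℝ) = K * X := by rw [hR]; push_cast; ring
  have hNcast : (N : ℝ) = (R : ℝ) ^ (e + 2) := by rw [hN]; push_cast; ring
  have hroot : (N : ℝ) ^ (1 / ((e + 2 : ℕ) : ℝ)) = R := by
    rw [hNcast, one_div]
    exact Real.pow_rpow_inv_natCast hR'.le (by omega)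
  -- the bound for the primes
  have hXc : (X : ℝ) = (16 : ℝ) ^ (j + 1) := by rw [hX]; push_cast; ring
  have hlogN : Real.log N ≤ (e + 2) * ((Real.log K + 3) * (j + 1)) := by
    rw [hNcast, Real.log_pow, hRKX, Real.log_mul (by positivity) hX'.ne', hXc, Real.log_pow]
    have h16 : Real.log 16 ≤ 3 := by
      have h2 : (16 : ℝ) = 2 ^ 4 := by norm_num
      rw [h2, Real.log_pow]
      have := Real.log_two_lt_d9
      push_cast
      linarith
    push_cast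
    apply mul_le_mul_of_nonneg_left _ (by positivity)
    have hj0 : (0 : ℝ) ≤ j := Nat.cast_nonneg j
    nlinarith
  have hprime : ∀ n, n ≤ N → (prime n : ℝ) * rad e c j ≤ w := by
    intro n hn
    have h2 : (prime n : ℝ) ≤ 29 * N * Real.log N := by
      have h3 : (prime n : ℝ) ≤ prime N := by exact_mod_cast prime_le hn
      exact le_trans h3 (nth_le hN2)
    have h3 : (prime n : ℝ) ≤ 29 * N * ((e + 2) * ((Real.log K + 3) * (j + 1))) :=
      le_trans h2 (mul_le_mul_of_nonneg_left hlogN (by positivity))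
    calc (prime n : ℝ) * rad e c j ≤ (29 * N * ((e + 2) * ((Real.log K + 3) * (j + 1)))) * rad e c j :=
          mul_le_mul_of_nonneg_right h3 (rad_nonneg e hc0.le j)
      _ = C * c := by
          unfold rad
          rw [← hXc, hNcast, hRKX, hC, mul_pow]
          field_simp
      _ ≤ w := hc2
  -- the boxes
  set x : ℕ → Fin (e + 2) → ℝ := fun n i => Int.fract ((prime n : ℝ) * α i) with hx
  set B : ℕ → Fin (e + 2) → ℤ := fun n i => ⌊(R : ℝ) * x n i⌋ with hB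
  have hbox : ∀ n ∈ Icc 1 N, (∀ i, 0 ≤ B n i ∧ B n i < R) ∧
      ∃ z : ℤ, |(∑ i, (h i : ℝ) * B n i) - R * z| ≤ R * w' := by
    intro n hn
    rw [mem_Icc] at hn
    refine ⟨fun i => ⟨?_, ?_⟩, ?_⟩
    · exact Int.floor_nonneg.2 (mul_nonneg hR'.le (Int.fract_nonneg _))
    · show ⌊(R : ℝ) * x n i⌋ < (R : ℤ)
      rw [Int.floor_lt]
      have h2 : x n i < 1 := Int.fract_lt_one _
      push_cast
      nlinarith
    · have h4 : R * w' = R * w + ((e + 2 : ℕ) : ℝ) * X := by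
        rw [hw', mul_add]
        congr 1
        rw [hRKX]
        field_simp
        push_cast
        ring
      rw [h4]
      exact near hR0 hhX (le_trans (mul_le_mul_of_nonneg_left hm (Nat.cast_nonneg _)) (hprime n hn.2))
  set V : Finset (Fin (e + 2) → ℤ) := (Icc 1 N).image B with hV
  have hVc : (V.card : ℝ) ≤ N / A := by
    have h2 := box_count (e := e + 1) (R := R) (X := X) (h := h) (w := w') hR0
      hhX hw'0 hw'1 V (by
        intro b hb
        rw [hV, mem_image] at hb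
        obtain ⟨n, hn, rfl⟩ := hb
        exact hbox n hn)
    have h3 : (6 * w' * R + 3 * X) * (R : ℝ) ^ (e + 1) = (N : ℝ) * (6 * w' + 3 / K) := by
      rw [hNcast, pow_succ (R : ℝ) (e + 1), hRKX]
      field_simp
    rw [h3, hsum] at h2
    calc (V.card : ℝ) ≤ N * (1 / A) := h2
      _ = N / A := by ring
  have hpc := pair_count (Icc 1 N) B V (fun n hn => mem_image_of_mem B hn)
  rw [Nat.card_Icc, add_tsub_cancel_right] at hpc
  set P : ℕ := ((Icc 1 N ×ˢ Icc 1 N).filter (fun p => p.1 ≠ p.2 ∧ B p.1 = B p.2)).card with hPd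
  have hmono : P ≤ ((Icc 1 N ×ˢ Icc 1 N).filter
      (fun p => p.1 ≠ p.2 ∧ ‖x p.1 - x p.2‖ < 1 / (N : ℝ) ^ (1 / ((e + 2 : ℕ) : ℝ)))).card := by
    apply card_le_card
    intro p hp
    rw [mem_filter] at hp ⊢
    refine ⟨hp.1, hp.2.1, ?_⟩
    rw [hroot]
    exact same_box hR0 hp.2.2
  have h2 : (N : ℝ) ^ 2 ≤ V.card * (P + N) := by exact_mod_cast hpc
  have h3 : (N : ℝ) ^ 2 ≤ N / A * (P + N) :=
    le_trans h2 (mul_le_mul_of_nonneg_right hVc (by positivity))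
  have h4 : (A : ℝ) * N ≤ P + N := by
    have h5 : (N : ℝ) * (A * N) ≤ N * (P + N) := by
      have h6 : N / A * (P + N) = N * (P + N) / (A : ℝ) := by ring
      rw [h6, le_div_iff₀ hA'] at h3
      linarith
    exact le_of_mul_le_mul_left h5 hN0'
  have h5 := hN0 N hNN0
  have h6 : (P : ℝ) ≤ (((Icc 1 N ×ˢ Icc 1 N).filter
      (fun p => p.1 ≠ p.2 ∧ ‖x p.1 - x p.2‖ < 1 / (N : ℝ) ^ (1 / ((e + 2 : ℕ) : ℝ)))).card : ℝ) := by
    exact_mod_cast hmono
  have h7 : 1 / (N : ℝ) * (P : ℝ) ≤ 1 / (N : ℝ) * (((Icc 1 N ×ˢ Icc 1 N).filter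
      (fun p => p.1 ≠ p.2 ∧ ‖x p.1 - x p.2‖ < 1 / (N : ℝ) ^ (1 / ((e + 2 : ℕ) : ℝ)))).card : ℝ) :=
    mul_le_mul_of_nonneg_left h6 (by positivity)
  have h8 : 1 / (N : ℝ) * (P : ℝ) < (2 * 1 : ℝ) ^ (e + 2) + 1 := lt_of_le_of_lt h7 h5
  have h9 : (A : ℝ) = 2 ^ (e + 2) + 3 := by rw [hA]; push_cast; ring
  rw [one_div, inv_mul_lt_iff₀ hN0'] at h8
  rw [mul_one] at h8
  rw [h9] at h4
  nlinarith

/-- **Main theorem.** For every `d ≥ 2` and almost every `α ∈ ℝ^d`, the sequence `({p_n α})_{n ≥ 1}` does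
not have Poissonian pair correlations. -/
theorem result (d : ℕ) (hd : 2 ≤ d) : ∀ᵐ α : Fin d → ℝ,
    ¬ HasPPC d (fun n i => Int.fract ((prime n : ℝ) * α i)) := by
  obtain ⟨e, rfl⟩ : ∃ e, d = e + 2 := ⟨d - 2, by omega⟩
  exact main e

end Pool.Agent.Results.MP_29df5b_nt.PrimesNotPoissonian
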